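import Pool.Agent.W300.SvD.PartA
import Pool.Agent.W300.SvD.Example

/-!
The worst-case lengths of steep paths and of simplex (Dantzig) paths on simple 6-polytopes
with 8 facets are different: `M(ζ,6,8) = 15` and `M(τ,6,8) ≤ 14`.
-/

namespace Pool.Agent.Results.MP_dd1a29_co.SteepVsDantzig

open Pool.Agent.W300.SvD

theorem steep_le : steepMax 6 8 ≤ 15 := by
  refine iSup_le fun a => iSup_le fun ha => iSup_le fun φ => iSup_le fun k => iSup_le fun x =>
    iSup_le fun hx => ?_
  have := path_le ha hx.1
  exact_mod_cast this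

theorem le_steep : 15 ≤ steepMax 6 8 := by
  unfold steepMax
  refine le_iSup_of_le Ex.aR (le_iSup_of_le Ex.isSimple (le_iSup_of_le Ex.phi
    (le_iSup_of_le 15 (le_iSup_of_le Ex.xs (le_iSup_of_le Ex.steep ?_)))))
  norm_num

theorem simplex_le : simplexMax 6 8 ≤ 14 := by
  refine iSup_le fun a => iSup_le fun ha => iSup_le fun φ => iSup_le fun k => iSup_le fun x =>
    iSup_le fun hx => ?_
  have h1 := path_le ha hx.1
  have h2 : k ≠ 15 := by
    rintro rfl
    exact no_simplex_path ha hx
  have h3 : k ≤ 14 := by omega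
  exact_mod_cast h3

/-- The steep maximum for `(d, n) = (6, 8)` is `15` while the simplex maximum is at most
`14`; so the equality `M(ζ,d,n) = M(τ,d,n)` fails. -/
theorem result : steepMax 6 8 = 15 ∧ simplexMax 6 8 ≤ 14 ∧
    ¬ ∀ d n : ℕ, d < n → steepMax d n = simplexMax d n := by
  have h1 : steepMax 6 8 = 15 := le_antisymm steep_le le_steep
  refine ⟨h1, simplex_le, fun h => ?_⟩
  have h2 := simplex_le
  rw [← h 6 8 (by norm_num), h1] at h2
  exact absurd h2 (by norm_num)

end Pool.Agent.Results.MP_dd1a29_co.SteepVsDantzig
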